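import Pool.Agent.N402.GN.P0Bc

/-!
# GN/P0B: the Moebius function of `ℤ[i]` and coprimality (helper402)
-/

set_option autoImplicit false

namespace Pool.Agent.N402.GN

open Finset
open Pool.Agent.N782.GN

open Classical in
/-- weighted sums over the elements coprime to `r` -/
noncomputable def G (ψ : ℝ → ℝ) (r : ZI) (x : ℝ) : ℝ :=
  ∑ t ∈ (bl x).filter (fun t => IsCoprime t r), mu t * ψ (x / nz t)

theorem bl_empty {x : ℝ} (hx : x < 1) : bl x = ∅ := by
  rw [Finset.eq_empty_iff_forall_notMem]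
  intro z hz
  rw [mem_bl] at hz
  have := one_le_nz hz.1
  linarith [hz.2]

theorem G_small (ψ : ℝ → ℝ) (r : ZI) {x : ℝ} (hx : x < 1) : G ψ r x = 0 := by
  unfold G
  rw [bl_empty hx, Finset.filter_empty, Finset.sum_empty]

theorem G_congr (ψ : ℝ → ℝ) {r r' : ZI} (h : ∀ t, IsCoprime t r ↔ IsCoprime t r') (x : ℝ) :
    G ψ r x = G ψ r' x := by
  classical
  unfold G
  congr 1
  ext t
  rw [Finset.mem_filter, Finset.mem_filter, h t]

theorem mu_prime {p : ZI} (hp : Prime p) : mu p = -1 := by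
  unfold mu
  rw [if_pos hp.irreducible.squarefree,
    UniqueFactorizationMonoid.card_factors_of_irreducible hp.irreducible, pow_one]

theorem G_rec (hm : S_MUB) (ψ : ℝ → ℝ) {p r : ZI} (hp : Prime p) (hr : ¬ p ∣ r) (x : ℝ) :
    G ψ r x = G ψ (p * r) x - G ψ (p * r) (x / nz p) := by
  classical
  have hpr : IsCoprime p r := (hp.coprime_iff_not_dvd).2 hr
  have hnp := nz_pos hp.ne_zero
  have e0 : G ψ r x = ∑ t ∈ ((bl x).filter (fun t => IsCoprime t r)).filter (fun t => p ∣ t), mu t * ψ (x / nz t) +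
      ∑ t ∈ ((bl x).filter (fun t => IsCoprime t r)).filter (fun t => ¬ p ∣ t), mu t * ψ (x / nz t) := by
    rw [Finset.sum_filter_add_sum_filter_not]
    unfold G
    congr 1
  have e1 : ∑ t ∈ ((bl x).filter (fun t => IsCoprime t r)).filter (fun t => ¬ p ∣ t), mu t * ψ (x / nz t) =
      G ψ (p * r) x := by
    unfold G
    congr 1
    ext t
    rw [Finset.mem_filter, Finset.mem_filter, Finset.mem_filter, ← hp.coprime_iff_not_dvd]
    constructor
    · rintro ⟨⟨h1, h2⟩, h3⟩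
      exact ⟨h1, IsCoprime.mul_right h3.symm h2⟩
    · rintro ⟨h1, h2⟩
      rw [IsCoprime.mul_right_iff] at h2
      exact ⟨⟨h1, h2.2⟩, h2.1.symm⟩
  have e2 : ((bl x).filter (fun t => IsCoprime t r)).filter (fun t => p ∣ t) =
      ((bl (x / nz p)).filter (fun t => IsCoprime t r)).image (fun s => p * s) := by
    ext t
    rw [Finset.mem_filter, Finset.mem_filter, Finset.mem_image, mem_bl]
    constructor
    · rintro ⟨⟨⟨h1, h2⟩, h3⟩, s, rfl⟩
      refine ⟨s, ?_, rfl⟩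
      rw [Finset.mem_filter, mem_bl]
      refine ⟨⟨right_ne_zero_of_mul h1, ?_⟩, h3.of_mul_left_right⟩
      rw [le_div_iff₀ hnp, mul_comm, ← nz_mul]
      exact h2
    · rintro ⟨s, hs, rfl⟩
      rw [Finset.mem_filter, mem_bl] at hs
      refine ⟨⟨⟨mul_ne_zero hp.ne_zero hs.1.1, ?_⟩, IsCoprime.mul_left hpr hs.2⟩, dvd_mul_right _ _⟩
      rw [nz_mul, mul_comm, ← le_div_iff₀ hnp]
      exact hs.1.2
  have e3 : ∑ t ∈ ((bl x).filter (fun t => IsCoprime t r)).filter (fun t => p ∣ t), mu t * ψ (x / nz t) =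
      - G ψ (p * r) (x / nz p) := by
    rw [e2, Finset.sum_image (fun a _ b _ h => mul_left_cancel₀ hp.ne_zero h)]
    unfold G
    rw [Finset.sum_filter, Finset.sum_filter, ← Finset.sum_neg_distrib]
    refine Finset.sum_congr rfl fun s hs => ?_
    rw [mem_bl] at hs
    have h5 : x / nz (p * s) = x / nz p / nz s := by
      rw [nz_mul, div_div]
    rw [h5]
    by_cases h1 : IsCoprime s r
    · rw [if_pos h1]
      by_cases h2 : IsCoprime p s
      · rw [if_pos (IsCoprime.mul_right h2.symm h1), hm.1 p s h2, mu_prime hp]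
        ring
      · rw [if_neg (fun h => h2 (IsCoprime.mul_right_iff.1 h).1.symm), hm.2.1 p s hp.ne_zero hs.1 h2]
        ring
    · rw [if_neg h1, if_neg (fun h => h1 (IsCoprime.mul_right_iff.1 h).2)]
      ring
  rw [e0, e1, e3]
  ring

theorem nz_prime {p : ZI} (hp : Prime p) : 2 ≤ nz p := by
  have h1 := one_le_nz hp.ne_zero
  rw [← natAbs_eq] at h1 ⊢
  have h2 : 1 ≤ p.norm.natAbs := by exact_mod_cast h1
  have h3 : p.norm.natAbs ≠ 1 := by
    intro h
    exact hp.not_isUnit (Zsqrtd.norm_eq_one_iff.1 h)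
  have h4 : 2 ≤ p.norm.natAbs := by omega
  exact_mod_cast h4

theorem G_bd (hm : S_MUB) (ψ : ℝ → ℝ) {α β X : ℝ} (hα : 0 ≤ α) (hβ : 0 ≤ β)
    (h1 : ∀ x : ℝ, 1 ≤ x → x ≤ X → |G ψ 1 x| ≤ α * x + β * Real.sqrt x) (r : ZI) :
    r ≠ 0 → ∀ x : ℝ, 0 ≤ x → x ≤ X → |G ψ r x| ≤ nz r ^ 2 * (α * x + β * Real.sqrt x) := by
  induction r using WfDvdMonoid.induction_on_irreducible with
  | zero => exact fun h => absurd rfl h
  | unit u hu =>
    intro hu0 x hx0 hxX
    have h2 : nz u = 1 := by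
      rw [← natAbs_eq, Zsqrtd.norm_eq_one_iff.2 hu, Nat.cast_one]
    rw [h2, one_pow, one_mul, G_congr ψ (r' := 1)]
    · rcases lt_or_ge x 1 with h | h
      · rw [G_small ψ 1 h, abs_zero]
        positivity
      · exact h1 x h hxX
    · intro t
      refine ⟨fun _ => isCoprime_one_right, fun _ => ?_⟩
      obtain ⟨v, rfl⟩ := hu
      exact ⟨0, ((v⁻¹ : ZIˣ) : ZI), by rw [zero_mul, zero_add, Units.inv_mul]⟩
  | mul r p hr0 hp ih =>
    intro _ 
    have hpp : Prime p := hp.prime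
    have hp2 := nz_prime hpp
    have ih' := ih hr0
    have hr1 := one_le_nz hr0
    by_cases hd : p ∣ r
    · intro x hx0 hxX
      rw [G_congr ψ (r' := r)]
      · refine (ih' x hx0 hxX).trans ?_
        rw [nz_mul]
        have : nz r ^ 2 ≤ (nz p * nz r) ^ 2 := by
          have h3 : nz r ≤ nz p * nz r := by nlinarith
          gcongr
        gcongr
      · intro t
        rw [IsCoprime.mul_right_iff]
        exact ⟨fun h => h.2, fun h => ⟨h.of_isCoprime_of_dvd_right hd, h⟩⟩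
    · have key : ∀ n : ℕ, ∀ x : ℝ, 0 ≤ x → x ≤ X → x < 2 ^ n →
          |G ψ (p * r) x| ≤ 4 * nz r ^ 2 * (α * x + β * Real.sqrt x) := by
        intro n
        induction n with
        | zero =>
          intro x hx0 hxX hx
          rw [pow_zero] at hx
          rw [G_small ψ _ hx, abs_zero]
          positivity
        | succ n ihn =>
          intro x hx0 hxX hx
          have h3 := G_rec hm ψ hpp hd x
          have h4 : G ψ (p * r) x = G ψ r x + G ψ (p * r) (x / nz p) := by linarith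
          have h5 : x / nz p ≤ x / 2 := by gcongr
          have h6 := ihn (x / nz p) (by positivity) (by linarith) (by rw [pow_succ] at hx; linarith)
          have h7 := ih' x hx0 hxX
          have h8 : Real.sqrt (x / nz p) ≤ 3 / 4 * Real.sqrt x := by
            rw [Real.sqrt_le_left (by positivity), mul_pow, Real.sq_sqrt hx0]
            linarith
          rw [h4]
          refine (abs_add_le _ _).trans ?_
          calc |G ψ r x| + |G ψ (p * r) (x / nz p)| ≤ nz r ^ 2 * (α * x + β * Real.sqrt x) +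
              4 * nz r ^ 2 * (α * (x / nz p) + β * Real.sqrt (x / nz p)) := add_le_add h7 h6
            _ ≤ nz r ^ 2 * (α * x + β * Real.sqrt x) +
              4 * nz r ^ 2 * (α * (3 / 4 * x) + β * (3 / 4 * Real.sqrt x)) := by
                have h9 : x / nz p ≤ 3 / 4 * x := by linarith
                gcongr
            _ = 4 * nz r ^ 2 * (α * x + β * Real.sqrt x) := by ring
      intro x hx0 hxX
      obtain ⟨n, hn⟩ := pow_unbounded_of_one_lt x (by norm_num : (1 : ℝ) < 2)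
      refine (key n x hx0 hxX hn).trans ?_
      rw [nz_mul, mul_pow]
      have : (4 : ℝ) ≤ nz p ^ 2 := by nlinarith
      gcongr

theorem log_pow_le (n : ℕ) : ∃ C : ℝ, 0 < C ∧ ∀ Y : ℝ, 1 ≤ Y → Real.log Y ^ n ≤ C * Real.sqrt (Real.sqrt Y) := by
  refine ⟨(4 * (n + 1)) ^ n, by positivity, fun Y hY => ?_⟩
  have h0 : 0 ≤ Real.log Y := Real.log_nonneg hY
  have hε : (0 : ℝ) < 1 / (4 * (n + 1)) := by positivity
  have h1 := Real.log_le_rpow_div (by linarith : (0 : ℝ) ≤ Y) hε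
  have h2 : Real.sqrt (Real.sqrt Y) = Y ^ (1 / 4 : ℝ) := by
    rw [Real.sqrt_eq_rpow, Real.sqrt_eq_rpow, ← Real.rpow_mul (by linarith)]
    norm_num
  calc Real.log Y ^ n ≤ (Y ^ (1 / (4 * (n + 1)) : ℝ) / (1 / (4 * (n + 1)))) ^ n := by gcongr
    _ = (4 * (n + 1)) ^ n * (Y ^ (1 / (4 * (n + 1)) : ℝ)) ^ n := by
      rw [← mul_pow]
      congr 1
      field_simp
    _ ≤ (4 * (n + 1)) ^ n * Real.sqrt (Real.sqrt Y) := by
      have h30 : (Y ^ (1 / (4 * (n + 1)) : ℝ)) ^ n = Y ^ ((1 / (4 * ((n : ℝ) + 1))) * n) := by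
        rw [← Real.rpow_natCast, ← Real.rpow_mul (by linarith)]
      rw [h2, h30]
      have h3 : (1 / (4 * ((n : ℝ) + 1))) * n ≤ 1 / 4 := by
        rw [one_div_mul_eq_div, div_le_iff₀ (by positivity)]
        linarith
      have h4 : Y ^ ((1 / (4 * ((n : ℝ) + 1))) * n) ≤ Y ^ (1 / 4 : ℝ) :=
        Real.rpow_le_rpow_of_exponent_le hY h3
      gcongr

theorem fin (hm : S_MUB) (A B : ℕ) (ψ : ℝ → ℝ) {C : ℝ} (hC : 0 < C)
    (h1 : ∀ x : ℝ, 1 ≤ x → |G ψ 1 x| ≤ C * x / ell ⌊x⌋₊ ^ (A + 4 * B)) :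
    ∃ C' : ℝ, 0 < C' ∧ ∀ (Y : ℝ) (q : ℕ), 2 ≤ Y → 1 ≤ q → (q : ℝ) ≤ (Real.log Y) ^ B →
      |G ψ ((q : ℕ) : ZI) Y| ≤ C' * Y / (Real.log Y) ^ A := by
  obtain ⟨C2, hC2, hlog⟩ := log_pow_le (A + 4 * B)
  refine ⟨C * 2 ^ (A + 4 * B) + C * C2, by positivity, fun Y q hY hq hqB => ?_⟩
  have hL : 0 < Real.log Y := Real.log_pos (by linarith)
  have hY0 : 0 < Y := by linarith
  set L := Real.log Y with hLdef
  have hbase : ∀ x : ℝ, 1 ≤ x → x ≤ Y →
      |G ψ 1 x| ≤ C * 2 ^ (A + 4 * B) / L ^ (A + 4 * B) * x + C * Real.sqrt (Real.sqrt Y) * Real.sqrt x := by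
    intro x hx1 hxY
    refine (h1 x hx1).trans ?_
    have hx0 : 0 < x := by linarith
    have hk : 1 ≤ ⌊x⌋₊ := Nat.le_floor (by rwa [Nat.cast_one])
    have hl1 := one_le_ell hk
    rcases le_or_gt (Real.sqrt Y) x with h2 | h2
    · have h3 : L ≤ 2 * ell ⌊x⌋₊ := by
        have h4 : L = 2 * Real.log (Real.sqrt Y) := by
          rw [Real.log_sqrt hY0.le]
          ring
        have h5 : Real.log (Real.sqrt Y) ≤ ell ⌊x⌋₊ := by
          apply Real.log_le_log (Real.sqrt_pos.2 hY0)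
          have := Nat.lt_floor_add_one x
          linarith
        linarith
      have h4 : 0 ≤ C * Real.sqrt (Real.sqrt Y) * Real.sqrt x := by positivity
      have h5 : C * x / ell ⌊x⌋₊ ^ (A + 4 * B) ≤ C * 2 ^ (A + 4 * B) / L ^ (A + 4 * B) * x := by
        rw [div_mul_eq_mul_div, div_le_div_iff₀ (by positivity) (by positivity)]
        calc C * x * L ^ (A + 4 * B) ≤ C * x * (2 * ell ⌊x⌋₊) ^ (A + 4 * B) := by gcongr
          _ = _ := by rw [mul_pow]; ring
      linarith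
    · have h3 : C * x / ell ⌊x⌋₊ ^ (A + 4 * B) ≤ C * x := by
        apply div_le_self (by positivity)
        exact one_le_pow₀ hl1
      have h4 : Real.sqrt x ≤ Real.sqrt (Real.sqrt Y) := Real.sqrt_le_sqrt h2.le
      have h5 : C * x = C * Real.sqrt x * Real.sqrt x := by
        rw [mul_assoc, Real.mul_self_sqrt hx0.le]
      have h6 : C * Real.sqrt x * Real.sqrt x ≤ C * Real.sqrt (Real.sqrt Y) * Real.sqrt x := by gcongr
      have h7 : 0 ≤ C * 2 ^ (A + 4 * B) / L ^ (A + 4 * B) * x := by positivity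
      linarith
  have hq0 : ((q : ℕ) : ZI) ≠ 0 := by
    intro h
    have : (q : ℤ) = 0 := by
      have := congrArg Zsqrtd.re h
      simpa using this
    omega
  have h2 := G_bd hm ψ (by positivity) (by positivity) hbase ((q : ℕ) : ZI) hq0 Y hY0.le le_rfl
  have h3 : nz ((q : ℕ) : ZI) = (q : ℝ) ^ 2 := by
    rw [nz_eq]
    simp
  have h4 : nz ((q : ℕ) : ZI) ^ 2 ≤ L ^ (4 * B) := by
    rw [h3, ← pow_mul]
    calc (q : ℝ) ^ (2 * 2) ≤ (L ^ B) ^ (2 * 2) := by gcongr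
      _ = L ^ (4 * B) := by
        rw [← pow_mul]
        congr 1
        ring
  refine h2.trans ?_
  have h5 : Real.sqrt Y * Real.sqrt Y = Y := Real.mul_self_sqrt hY0.le
  have h6 : Real.sqrt (Real.sqrt Y) * Real.sqrt (Real.sqrt Y) = Real.sqrt Y :=
    Real.mul_self_sqrt (Real.sqrt_nonneg _)
  have h7 := hlog Y (by linarith)
  rw [le_div_iff₀ (by positivity)]
  calc nz ((q : ℕ) : ZI) ^ 2 * (C * 2 ^ (A + 4 * B) / L ^ (A + 4 * B) * Y +
        C * Real.sqrt (Real.sqrt Y) * Real.sqrt Y) * L ^ A ≤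
      L ^ (4 * B) * (C * 2 ^ (A + 4 * B) / L ^ (A + 4 * B) * Y +
        C * Real.sqrt (Real.sqrt Y) * Real.sqrt Y) * L ^ A := by gcongr
    _ = C * 2 ^ (A + 4 * B) * Y * (L ^ (A + 4 * B) / L ^ (A + 4 * B)) +
        L ^ (A + 4 * B) * (C * Real.sqrt (Real.sqrt Y) * Real.sqrt Y) := by
      rw [pow_add]
      ring
    _ = C * 2 ^ (A + 4 * B) * Y + L ^ (A + 4 * B) * (C * Real.sqrt (Real.sqrt Y) * Real.sqrt Y) := by
      rw [div_self (by positivity), mul_one]
    _ ≤ C * 2 ^ (A + 4 * B) * Y + C2 * Real.sqrt (Real.sqrt Y) * (C * Real.sqrt (Real.sqrt Y) * Real.sqrt Y) := by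
      gcongr
    _ = C * 2 ^ (A + 4 * B) * Y + C * C2 * ((Real.sqrt (Real.sqrt Y) * Real.sqrt (Real.sqrt Y)) * Real.sqrt Y) := by
      ring
    _ = (C * 2 ^ (A + 4 * B) + C * C2) * Y := by
      rw [h6, h5]
      ring

theorem G_one (hm : S_MUB) (ψ : ℝ → ℝ) (x : ℝ) :
    G ψ 1 x = 4 * ∑ n ∈ Ioc 0 ⌊x⌋₊, aR n * ψ (x / n) := by
  rw [← sum_mu hm (fun n => ψ (x / n)) x]
  classical
  unfold G
  have h1 : (bl x).filter (fun t => IsCoprime t 1) = bl x :=
    Finset.filter_true_of_mem (fun t _ => isCoprime_one_right)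
  have h2 : ∑ t ∈ (bl x).filter (fun t => IsCoprime t 1), mu t * ψ (x / nz t) =
      ∑ t ∈ bl x, mu t * ψ (x / nz t) := by rw [h1]
  refine Eq.trans ?_ (h2.trans ?_)
  · congr 1
  · refine Finset.sum_congr rfl fun t _ => ?_
    rw [natAbs_eq]

/-- **GN/P0B** -/
theorem p0b (hm : S_MUB) : S_P0B := by
  intro A B
  obtain ⟨C1, hC1, hS⟩ := S_bd (A + 4 * B)
  obtain ⟨C2, hC2, hT⟩ := T_bd (A + 4 * B)
  have hfl : ∀ x : ℝ, 1 ≤ x → ((⌊x⌋₊ : ℕ) : ℝ) ≤ x := fun x hx => Nat.floor_le (by linarith)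
  obtain ⟨D1, hD1, h1⟩ := fin hm A B (fun _ => 1) (C := 4 * C1) (by positivity) (by
    intro x hx
    rw [G_one hm, abs_mul, abs_of_pos (by norm_num : (0 : ℝ) < 4)]
    simp only [mul_one]
    have h2 := hS ⌊x⌋₊
    have h3 := ell_pos ⌊x⌋₊
    have h4 := hfl x hx
    calc 4 * |∑ n ∈ Ioc 0 ⌊x⌋₊, aR n| ≤ 4 * (C1 * x / ell ⌊x⌋₊ ^ (A + 4 * B)) := by
          refine mul_le_mul_of_nonneg_left (h2.trans ?_) (by norm_num)
          gcongr
      _ = _ := by ring)
  obtain ⟨D2, hD2, h2⟩ := fin hm A B (fun u => u) (C := 4 * C2) (by positivity) (by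
    intro x hx
    have hx0 : 0 < x := by linarith
    rw [G_one hm, abs_mul, abs_of_pos (by norm_num : (0 : ℝ) < 4)]
    have h3 : ∑ n ∈ Ioc 0 ⌊x⌋₊, aR n * (x / n) = x * ∑ n ∈ Ioc 0 ⌊x⌋₊, aR n * (1 / n) := by
      rw [Finset.mul_sum]
      exact Finset.sum_congr rfl fun n _ => by ring
    rw [h3, abs_mul, abs_of_pos hx0]
    have h4 := hT ⌊x⌋₊
    calc 4 * (x * |∑ n ∈ Ioc 0 ⌊x⌋₊, aR n * (1 / n)|) ≤ 4 * (x * (C2 / ell ⌊x⌋₊ ^ (A + 4 * B))) := by
          gcongr
      _ = _ := by ring)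
  refine ⟨max D1 D2, lt_max_of_lt_left hD1, fun Y q hY hq hqB => ?_⟩
  have hL : 0 < Real.log Y := Real.log_pos (by linarith)
  have hY0 : 0 < Y := by linarith
  constructor
  · have h3 := h1 Y q hY hq hqB
    unfold G at h3
    simp only [mul_one] at h3
    refine h3.trans ?_
    have := le_max_left D1 D2
    gcongr
  · have h3 := h2 Y q hY hq hqB
    unfold G at h3
    have h4 : ∀ s : Finset ZI, ∑ t ∈ s, mu t * (Y / nz t) = Y * ∑ t ∈ s, mu t / nz t := by
      intro s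
      rw [Finset.mul_sum]
      exact Finset.sum_congr rfl fun t _ => by ring
    rw [h4, abs_mul, abs_of_pos hY0, mul_comm D2 Y, mul_div_assoc] at h3
    have h5 := le_of_mul_le_mul_left h3 hY0
    refine h5.trans ?_
    have := le_max_right D1 D2
    gcongr

end Pool.Agent.N402.GN
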