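import Pool.Agent.N27.GN.NzA
import Pool.Agent.N27.GN.PerA
import Pool.Agent.H304R3.HK.LamH
import Pool.Agent.H705R2.MLogF

/-!
# GN/P0B, part A: the coefficients of the inverse of the zeta function of `ℤ[i]`; Moebius sums (helper402)
-/

set_option autoImplicit false

namespace Pool.Agent.N402.GN

open Finset ArithmeticFunction
open Pool.Agent.N782.GN
open Pool.Agent.H304R3.HK (UH bb CS lg_bb ccf M4.T M4.mem_T M4.bb_eq M4.norm_nn M4.ccf_h1 M4.h1)
open Pool.Agent.N27.GN (h0 UH_h0 conv)
open Pool.Agent.N27.GN.NZ (AF AF_apply GG lg_AF log_mul conv_eq)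

/-! ### the coefficients -/

/-- the character modulo `4` -/
noncomputable def x4 (n : ℕ) : ℂ := ((ZMod.χ₄ (n : ZMod 4) : ℤ) : ℂ)

theorem x4_mul (m n : ℕ) : x4 (m * n) = x4 m * x4 n := by
  unfold x4
  push_cast
  rw [map_mul]
  push_cast
  ring

theorem x4_one : x4 1 = 1 := by
  unfold x4
  simp

/-- `f χ` -/
noncomputable def tw (f : ArithmeticFunction ℂ) : ArithmeticFunction ℂ := ⟨fun n => f n * x4 n, by simp⟩

theorem tw_apply (f : ArithmeticFunction ℂ) (n : ℕ) : tw f n = f n * x4 n := rfl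

theorem tw_mul (f g : ArithmeticFunction ℂ) : tw (f * g) = tw f * tw g := by
  ext n
  rw [tw_apply, mul_apply, mul_apply, Finset.sum_mul]
  refine Finset.sum_congr rfl fun p hp => ?_
  rw [tw_apply, tw_apply, ← (Nat.mem_divisorsAntidiagonal.1 hp).1, x4_mul]
  ring

theorem tw_one : tw 1 = 1 := by
  ext n
  rw [tw_apply]
  by_cases h : n = 1
  · rw [h, x4_one, mul_one]
  · rw [one_apply_ne h, zero_mul]

/-- `ζ` -/
noncomputable def zc : ArithmeticFunction ℂ := ((ArithmeticFunction.zeta : ArithmeticFunction ℕ) : ArithmeticFunction ℂ)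

/-- `μ` -/
noncomputable def mc : ArithmeticFunction ℂ := ((ArithmeticFunction.moebius : ArithmeticFunction ℤ) : ArithmeticFunction ℂ)

theorem mc_zc : mc * zc = 1 := by
  exact coe_moebius_mul_coe_zeta

theorem zc_apply {n : ℕ} (hn : n ≠ 0) : zc n = 1 := by
  unfold zc
  rw [natCoe_apply, zeta_apply, if_neg hn, Nat.cast_one]

/-- `Λ` -/
noncomputable def lc : ArithmeticFunction ℂ := AF fun n => ((vonMangoldt n : ℝ) : ℂ)

theorem lc_zc (n : ℕ) : zc n * (Real.log n : ℂ) = (lc * zc) n := by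
  rcases eq_or_ne n 0 with rfl | hn
  · simp
  rw [zc_apply hn, one_mul, mul_apply]
  have h := congrArg (fun f : ArithmeticFunction ℝ => f n) vonMangoldt_mul_zeta
  simp only [mul_apply, ArithmeticFunction.log_apply] at h
  rw [← h]
  push_cast
  refine Finset.sum_congr rfl fun p hp => ?_
  have h1 := Nat.mem_divisorsAntidiagonal.1 hp
  have h2 : p.1 ≠ 0 := by rintro h; rw [h, zero_mul] at h1; exact h1.2 h1.1.symm
  have h3 : p.2 ≠ 0 := by rintro h; rw [h, mul_zero] at h1; exact h1.2 h1.1.symm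
  rw [zc_apply h3, lc, AF_apply _ h2, natCoe_apply, zeta_apply, if_neg h3]
  push_cast
  ring

theorem lx_zx (n : ℕ) : tw zc n * (Real.log n : ℂ) = (tw lc * tw zc) n := by
  rw [← tw_mul, tw_apply, tw_apply, ← lc_zc]
  ring

theorem prod_log (n : ℕ) : (zc * tw zc) n * (Real.log n : ℂ) = ((lc + tw lc) * (zc * tw zc)) n := by
  rw [log_mul]
  have e1 : ∀ p : ℕ × ℕ, (zc p.1 * (Real.log p.1 : ℂ)) * tw zc p.2 +
      zc p.1 * (tw zc p.2 * (Real.log p.2 : ℂ)) =
      (lc * zc) p.1 * tw zc p.2 + zc p.1 * (tw lc * tw zc) p.2 := by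
    intro p
    rw [lc_zc, lx_zx]
  simp only [e1]
  rw [Finset.sum_add_distrib, ← mul_apply, ← mul_apply]
  have e2 : (lc + tw lc) * (zc * tw zc) = (lc * zc) * tw zc + zc * (tw lc * tw zc) := by ring
  rw [e2, ArithmeticFunction.add_apply]

theorem GG_eq : GG h0 = lc + tw lc := by
  ext n
  rcases eq_or_ne n 0 with rfl | hn
  · simp
  unfold GG
  rw [AF_apply _ hn, ArithmeticFunction.add_apply, tw_apply, lc, AF_apply _ hn]
  by_cases hpp : IsPrimePow n
  · obtain ⟨p, k, hp, hk, rfl⟩ := (isPrimePow_nat_iff n).1 hpp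
    have h1 := M4.ccf_h1 p hp k hk
    have h2 : ccf h0 (p ^ k) = ccf M4.h1 (p ^ k) := by
      have : (h0 : GaussianInt → ℂ) = M4.h1 := by
        funext z
        show (if z = 0 then (0 : ℂ) else 1) = (if z = 0 then (0 : ℂ) else 1)
        congr
      rw [this]
    rw [h2, h1]
    unfold x4
    ring
  · have : vonMangoldt n = 0 := by rw [vonMangoldt_apply, if_neg hpp]
    rw [this]
    push_cast
    ring

theorem b_eq : AF (bb h0) = zc * tw zc := by
  have hl := lg_AF UH_h0
  rw [GG_eq] at hl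
  have hp := prod_log
  have h1 : AF (bb h0) 1 = 1 := by
    rw [AF_apply _ one_ne_zero, (lg_bb h0 UH_h0).b1]
  have h2 : (zc * tw zc) 1 = 1 := by
    rw [mul_apply_one, tw_apply, zc_apply one_ne_zero, x4_one]
    norm_num
  have h3 : (lc + tw lc) 1 = 0 := by
    rw [ArithmeticFunction.add_apply, tw_apply, lc, AF_apply _ one_ne_zero]
    simp
  ext n
  induction n using Nat.strong_induction_on with
  | _ n ih =>
    rcases Nat.lt_or_ge n 2 with h | h
    · interval_cases n
      · simp
      · rw [h1, h2]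
    · have hlog : (Real.log n : ℂ) ≠ 0 := by
        have : 0 < Real.log n := Real.log_pos (by exact_mod_cast h)
        exact_mod_cast this.ne'
      apply mul_right_cancel₀ hlog
      rw [hl, hp, mul_apply, mul_apply]
      refine Finset.sum_congr rfl fun p hp => ?_
      have h5 := Nat.mem_divisorsAntidiagonal.1 hp
      by_cases h6 : p.1 = 1
      · rw [h6, h3, zero_mul, zero_mul]
      · have h7 : p.1 ≠ 0 := by rintro h; rw [h, zero_mul] at h5; exact h5.2 h5.1.symm
        have h8 : p.2 ≠ 0 := by rintro h; rw [h, mul_zero] at h5; exact h5.2 h5.1.symm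
        have h9 : p.2 < n := by
          rw [← h5.1]
          have : 2 ≤ p.1 := by omega
          nlinarith [Nat.pos_of_ne_zero h8]
        rw [ih _ h9]

/-- the inverse -/
theorem a_eq (hm : S_MUB) : AF (bm h0) = mc * tw mc := by
  have h1 : AF (bb h0) * AF (bm h0) = 1 := by
    ext n
    rw [← conv_eq, conv hm UH_h0]
    rcases eq_or_ne n 1 with rfl | hn
    · simp [LSeries.delta]
    · simp [LSeries.delta, hn]
  have h2 : (mc * tw mc) * AF (bb h0) = 1 := by
    rw [b_eq]
    calc mc * tw mc * (zc * tw zc) = (mc * zc) * (tw mc * tw zc) := by ring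
      _ = 1 := by rw [← tw_mul, mc_zc, tw_one, one_mul]
  exact (left_inv_eq_right_inv h2 h1).symm

end Pool.Agent.N402.GN
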