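import Pool.Agent.N402.GN.P0Ba

/-!
# GN/P0B, part B: sums of the Moebius function of `ℤ[i]` (helper402)
-/

set_option autoImplicit false

namespace Pool.Agent.N402.GN

open Finset ArithmeticFunction
open Pool.Agent.N782.GN
open Pool.Agent.H304R3.HK (UH bb CS lg_bb ccf M4.T M4.mem_T M4.bb_eq M4.norm_nn M4.ccf_h1 M4.h1)
open Pool.Agent.N27.GN (h0 UH_h0 conv)
open Pool.Agent.N27.GN.NZ (AF AF_apply)

/-! ### sums by norm (after helper487) -/

theorem nz_pos {z : ZI} (hz : z ≠ 0) : 0 < nz z := by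
  rw [nz_eq]
  by_contra hcon
  push Not at hcon
  have h1 : (z.re : ℝ) = 0 := by nlinarith [sq_nonneg (z.re : ℝ), sq_nonneg (z.im : ℝ)]
  have h2 : (z.im : ℝ) = 0 := by nlinarith [sq_nonneg (z.re : ℝ), sq_nonneg (z.im : ℝ)]
  apply hz
  rw [Zsqrtd.ext_iff]
  exact ⟨by exact_mod_cast h1, by exact_mod_cast h2⟩

theorem natAbs_eq {z : ZI} : ((z.norm.natAbs : ℕ) : ℝ) = nz z := by
  unfold nz
  have h1 : 0 ≤ z.norm := M4.norm_nn z
  have h2 : ((z.norm.natAbs : ℕ) : ℤ) = z.norm := Int.natAbs_of_nonneg h1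
  rw [← Int.cast_natCast, h2]

theorem one_le_nz {z : ZI} (hz : z ≠ 0) : 1 ≤ nz z := by
  have h := nz_pos hz
  rw [← natAbs_eq] at h ⊢
  have h2 : 0 < z.norm.natAbs := by exact_mod_cast h
  exact_mod_cast h2

theorem nz_mul (z w : ZI) : nz (z * w) = nz z * nz w := by
  unfold nz
  rw [Zsqrtd.norm_mul]
  push_cast
  ring

theorem sum_norm (f : ZI → ℂ) (c : ℕ → ℂ) (x : ℝ) :
    ∑ n ∈ Icc 1 ⌊x⌋₊, bb f n * c n = (1 / 4 : ℂ) * ∑ z ∈ bl x, f z * c z.norm.natAbs := by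
  classical
  have h1 : ∀ z ∈ bl x, z.norm.natAbs ∈ Icc 1 ⌊x⌋₊ := by
    intro z hz
    rw [mem_bl] at hz
    have h2 := nz_pos hz.1
    rw [← natAbs_eq] at h2
    have h3 : 0 < z.norm.natAbs := by exact_mod_cast h2
    rw [mem_Icc]
    refine ⟨h3, Nat.le_floor ?_⟩
    rw [natAbs_eq]
    exact hz.2
  rw [← Finset.sum_fiberwise_of_maps_to h1, Finset.mul_sum]
  apply Finset.sum_congr rfl
  intro n hn
  rw [mem_Icc] at hn
  have hT : (bl x).filter (fun z => z.norm.natAbs = n) = M4.T n := by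
    ext z
    rw [mem_filter, mem_bl, M4.mem_T]
    constructor
    · rintro ⟨-, h⟩
      rw [← h, Int.natAbs_of_nonneg (M4.norm_nn z)]
    · intro h
      have h2 : z.norm.natAbs = n := by rw [h]; simp
      refine ⟨⟨?_, ?_⟩, h2⟩
      · rintro rfl
        rw [Zsqrtd.norm_zero] at h
        have : n = 0 := by exact_mod_cast h.symm
        omega
      · rw [← natAbs_eq, h2]
        have hx : 0 ≤ x := by
          by_contra hcon
          push Not at hcon
          rw [Nat.floor_of_nonpos hcon.le] at hn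
          omega
        exact (Nat.le_floor_iff hx).1 hn.2
  rw [hT, M4.bb_eq, mul_assoc, Finset.sum_mul]
  congr 1
  apply Finset.sum_congr rfl
  intro z hz
  rw [M4.mem_T] at hz
  have : z.norm.natAbs = n := by rw [hz]; simp
  rw [this]

/-! ### real coefficients -/

/-- the Moebius function -/
noncomputable def muR : ArithmeticFunction ℝ := ((ArithmeticFunction.moebius : ArithmeticFunction ℤ) : ArithmeticFunction ℝ)

/-- the character modulo `4` -/
noncomputable def xR (n : ℕ) : ℝ := ((ZMod.χ₄ (n : ZMod 4) : ℤ) : ℝ)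

/-- `μ χ` -/
noncomputable def muX : ArithmeticFunction ℝ := ⟨fun n => muR n * xR n, by simp⟩

/-- the coefficients of the inverse -/
noncomputable def aR : ArithmeticFunction ℝ := muR * muX

/-- the character as an arithmetic function -/
noncomputable def xF : ArithmeticFunction ℝ := ⟨fun n => if n = 0 then 0 else xR n, by simp⟩

theorem xF_apply {n : ℕ} (hn : n ≠ 0) : xF n = xR n := by
  show (if n = 0 then 0 else xR n) = xR n
  rw [if_neg hn]

/-- the coefficients of the zeta function -/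
noncomputable def bR : ArithmeticFunction ℝ :=
  ((ArithmeticFunction.zeta : ArithmeticFunction ℕ) : ArithmeticFunction ℝ) * xF

theorem muR_apply (n : ℕ) : muR n = ((ArithmeticFunction.moebius n : ℤ) : ℝ) := by
  unfold muR
  rw [intCoe_apply]

theorem muX_apply (n : ℕ) : muX n = muR n * xR n := rfl

theorem aR_cast (n : ℕ) : ((aR n : ℝ) : ℂ) = (mc * tw mc) n := by
  unfold aR
  rw [mul_apply, mul_apply]
  push_cast
  refine Finset.sum_congr rfl fun p _ => ?_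
  rw [muX_apply, tw_apply, muR_apply, muR_apply]
  unfold mc xR x4
  rw [intCoe_apply, intCoe_apply]
  push_cast
  ring

theorem bR_cast (n : ℕ) : ((bR n : ℝ) : ℂ) = (zc * tw zc) n := by
  unfold bR
  rw [mul_apply, mul_apply]
  push_cast
  refine Finset.sum_congr rfl fun p hp => ?_
  have h5 := Nat.mem_divisorsAntidiagonal.1 hp
  have h7 : p.1 ≠ 0 := by rintro h; rw [h, zero_mul] at h5; exact h5.2 h5.1.symm
  have h8 : p.2 ≠ 0 := by rintro h; rw [h, mul_zero] at h5; exact h5.2 h5.1.symm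
  rw [tw_apply, zc_apply h7, zc_apply h8, natCoe_apply, zeta_apply, if_neg h7, xF_apply h8]
  unfold xR x4
  push_cast
  ring

theorem ab_one : aR * bR = 1 := by
  have h2 : (mc * tw mc) * (zc * tw zc) = 1 := by
    calc mc * tw mc * (zc * tw zc) = (mc * zc) * (tw mc * tw zc) := by ring
      _ = 1 := by rw [← tw_mul, mc_zc, tw_one, one_mul]
  ext n
  have h3 : ((mc * tw mc) * (zc * tw zc)) n = (1 : ArithmeticFunction ℂ) n := by rw [h2]
  have h4 : (((aR * bR) n : ℝ) : ℂ) = ((mc * tw mc) * (zc * tw zc)) n := by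
    rw [mul_apply, mul_apply]
    push_cast
    refine Finset.sum_congr rfl fun p _ => ?_
    rw [aR_cast, bR_cast]
  rw [h3] at h4
  rcases eq_or_ne n 1 with rfl | hn
  · rw [one_one] at h4 ⊢
    exact_mod_cast h4
  · rw [one_apply_ne hn] at h4 ⊢
    exact_mod_cast h4

theorem sum_mu (hm : S_MUB) (c : ℕ → ℝ) (Y : ℝ) :
    ∑ t ∈ bl Y, mu t * c t.norm.natAbs = 4 * ∑ n ∈ Ioc 0 ⌊Y⌋₊, aR n * c n := by
  have h1 := sum_norm (fun z => (mu z : ℂ) * h0 z) (fun n => (c n : ℂ)) Y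
  have h2 : ∑ n ∈ Icc 1 ⌊Y⌋₊, bb (fun z => (mu z : ℂ) * h0 z) n * (c n : ℂ) =
      ((∑ n ∈ Ioc 0 ⌊Y⌋₊, aR n * c n : ℝ) : ℂ) := by
    push_cast
    rw [show Icc 1 ⌊Y⌋₊ = Ioc 0 ⌊Y⌋₊ from rfl]
    refine Finset.sum_congr rfl fun n hn => ?_
    rw [aR_cast, ← a_eq hm, AF_apply _ (by rw [mem_Ioc] at hn; omega)]
    rfl
  have h3 : ∑ z ∈ bl Y, (fun z => (mu z : ℂ) * h0 z) z * (fun n => (c n : ℂ)) z.norm.natAbs =
      ((∑ t ∈ bl Y, mu t * c t.norm.natAbs : ℝ) : ℂ) := by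
    push_cast
    refine Finset.sum_congr rfl fun z hz => ?_
    rw [mem_bl] at hz
    have : h0 z = 1 := by
      show (if z = 0 then (0 : ℂ) else 1) = 1
      rw [if_neg hz.1]
    rw [this, mul_one]
  rw [h2, h3] at h1
  have h4 : (∑ n ∈ Ioc 0 ⌊Y⌋₊, aR n * c n : ℝ) = 1 / 4 * ∑ t ∈ bl Y, mu t * c t.norm.natAbs := by
    apply Complex.ofReal_injective
    rw [h1]
    push_cast
    rfl
  linarith

theorem card_bl (Y : ℝ) : ((bl Y).card : ℝ) = 4 * ∑ n ∈ Ioc 0 ⌊Y⌋₊, bR n := by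
  have h1 := sum_norm h0 (fun _ => 1) Y
  have h2 : ∑ n ∈ Icc 1 ⌊Y⌋₊, bb h0 n * (1 : ℂ) =
      ((∑ n ∈ Ioc 0 ⌊Y⌋₊, bR n : ℝ) : ℂ) := by
    push_cast
    rw [show Icc 1 ⌊Y⌋₊ = Ioc 0 ⌊Y⌋₊ from rfl]
    refine Finset.sum_congr rfl fun n hn => ?_
    rw [bR_cast, ← b_eq, AF_apply _ (by rw [mem_Ioc] at hn; omega), mul_one]
  have h3 : ∑ z ∈ bl Y, h0 z * (fun _ => (1 : ℂ)) z.norm.natAbs = (((bl Y).card : ℝ) : ℂ) := by
    rw [Finset.card_eq_sum_ones]
    push_cast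
    refine Finset.sum_congr rfl fun z hz => ?_
    rw [mem_bl] at hz
    have : h0 z = 1 := by
      show (if z = 0 then (0 : ℂ) else 1) = 1
      rw [if_neg hz.1]
    rw [this, mul_one]
  rw [h2, h3] at h1
  have h4 : (∑ n ∈ Ioc 0 ⌊Y⌋₊, bR n : ℝ) = 1 / 4 * (bl Y).card := by
    apply Complex.ofReal_injective
    rw [h1]
    push_cast
    rfl
  linarith

/-! ### the hyperbola -/

theorem hyp (f g : ArithmeticFunction ℝ) {N y : ℕ} (hy : y ≤ N) :
    ∑ n ∈ Ioc 0 N, (f * g) n = ∑ n ∈ Ioc 0 y, f n * ∑ m ∈ Ioc 0 (N / n), g m +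
      ∑ m ∈ Ioc 0 N, g m * ∑ n ∈ Ioc y (N / m), f n := by
  rw [sum_Ioc_mul_eq_sum_sum, ← Finset.sum_Ioc_consecutive _ (Nat.zero_le y) hy]
  congr 1
  simp only [Finset.mul_sum]
  rw [Finset.sum_comm']
  · refine Finset.sum_congr rfl fun m _ => Finset.sum_congr rfl fun n _ => mul_comm _ _
  · intro n m
    rw [mem_Ioc, mem_Ioc, mem_Ioc, mem_Ioc]
    constructor
    · rintro ⟨⟨h1, h2⟩, h3, h4⟩
      rw [Nat.le_div_iff_mul_le (by omega)] at h4
      refine ⟨⟨h1, ?_⟩, h3, ?_⟩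
      · rw [Nat.le_div_iff_mul_le h3, mul_comm]
        exact h4
      · nlinarith
    · rintro ⟨⟨h1, h2⟩, h3, h4⟩
      rw [Nat.le_div_iff_mul_le h3] at h2
      refine ⟨⟨h1, ?_⟩, h3, ?_⟩
      · nlinarith
      · rw [Nat.le_div_iff_mul_le (by omega), mul_comm]
        exact h2

/-! ### the theorem of Siegel and Walfisz modulo `4` -/

theorem abs_muR (n : ℕ) : |muR n| ≤ 1 := by
  rw [muR_apply]
  exact_mod_cast ArithmeticFunction.abs_moebius_le_one (n := n)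

theorem abs_xR (n : ℕ) : |xR n| ≤ 1 := by
  unfold xR
  have : ∀ a : ZMod 4, |ZMod.χ₄ a| ≤ 1 := by decide
  exact_mod_cast this n

theorem abs_muX (n : ℕ) : |muX n| ≤ 1 := by
  rw [muX_apply, abs_mul]
  exact mul_le_one₀ (abs_muR n) (abs_nonneg _) (abs_xR n)

theorem sum_le {f : ℕ → ℝ} (hf : ∀ n, |f n| ≤ 1) (k : ℕ) : |∑ n ∈ Ioc 0 k, f n| ≤ k := by
  refine (Finset.abs_sum_le_sum_abs _ _).trans ((Finset.sum_le_sum fun n _ => hf n).trans ?_)
  rw [Finset.sum_const, Nat.card_Ioc, nsmul_eq_mul, mul_one, Nat.sub_zero]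

/-- from large `k` to all `k` -/
theorem all_k {f : ℕ → ℝ} (hf : ∀ n, |f n| ≤ 1) (A k₀ : ℕ)
    (h : ∀ k : ℕ, k₀ ≤ k → 1 ≤ k → |∑ n ∈ Ioc 0 k, f n| ≤ 2 * (k + 1) / (Real.log (k + 1)) ^ A) :
    ∃ C : ℝ, 0 < C ∧ ∀ k : ℕ, |∑ n ∈ Ioc 0 k, f n| ≤ C * k / (Real.log (k + 2)) ^ A := by
  have hlog : ∀ k : ℕ, 0 < Real.log (k + 2) := fun k => Real.log_pos (by
    have : (0 : ℝ) ≤ k := Nat.cast_nonneg k
    linarith)
  refine ⟨4 * 2 ^ A + (Real.log (k₀ + 2)) ^ A, by have := hlog k₀; positivity, fun k => ?_⟩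
  have hk := hlog k
  rcases Nat.eq_zero_or_pos k with rfl | hk1
  · simp
  have hkr : (1 : ℝ) ≤ k := by exact_mod_cast hk1
  rw [le_div_iff₀ (by positivity)]
  rcases le_or_gt k₀ k with h1 | h1
  · have h2 := h k h1 hk1
    have h3 : 0 < Real.log (k + 1) := Real.log_pos (by linarith)
    rw [le_div_iff₀ (by positivity)] at h2
    have h4 : Real.log (k + 2) ≤ 2 * Real.log (k + 1) := by
      rw [← Real.log_rpow (by linarith)]
      apply Real.log_le_log (by linarith)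
      rw [Real.rpow_two]
      nlinarith
    calc |∑ n ∈ Ioc 0 k, f n| * Real.log (k + 2) ^ A
        ≤ |∑ n ∈ Ioc 0 k, f n| * (2 * Real.log (k + 1)) ^ A := by
          gcongr
      _ = 2 ^ A * (|∑ n ∈ Ioc 0 k, f n| * Real.log (k + 1) ^ A) := by rw [mul_pow]; ring
      _ ≤ 2 ^ A * (2 * (k + 1)) := by gcongr
      _ ≤ 2 ^ A * (4 * k) := mul_le_mul_of_nonneg_left (by linarith) (by positivity)
      _ = 4 * 2 ^ A * k := by ring
      _ ≤ (4 * 2 ^ A + Real.log (k₀ + 2) ^ A) * k := by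
        have := hlog k₀
        gcongr
        have : 0 ≤ Real.log (k₀ + 2) ^ A := by positivity
        linarith
  · have h2 := sum_le hf k
    have h3 : Real.log (k + 2) ≤ Real.log (k₀ + 2) := by
      apply Real.log_le_log (by linarith)
      have : (k : ℝ) ≤ k₀ := by exact_mod_cast h1.le
      linarith
    calc |∑ n ∈ Ioc 0 k, f n| * Real.log (k + 2) ^ A ≤ k * Real.log (k₀ + 2) ^ A := by gcongr
      _ = (0 + Real.log (k₀ + 2) ^ A) * k := by ring
      _ ≤ (4 * 2 ^ A + Real.log (k₀ + 2) ^ A) * k := by gcongr; positivity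

theorem sum_range_succ' (f : ℕ → ℝ) (h : f 0 = 0) (k : ℕ) :
    ∑ n ∈ Ioc 0 k, f n = ∑ n ∈ range (k + 1), f n := by
  rw [Finset.sum_range_succ', h, add_zero, Finset.range_eq_Ico, Finset.sum_Ico_add' f 0 k 1]
  rfl

theorem U_bd (A : ℕ) : ∃ C : ℝ, 0 < C ∧ ∀ k : ℕ, |∑ n ∈ Ioc 0 k, muR n| ≤ C * k / (Real.log (k + 2)) ^ A := by
  obtain ⟨N₀, h⟩ := Pool.Agent.H705R2.MSW.swMu A 0
  refine all_k abs_muR A N₀ fun k h1 h2 => ?_
  have h3 := h (k + 1) (by omega) 1 0 le_rfl (by norm_num)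
  have hkr : (1 : ℝ) ≤ k := by exact_mod_cast h2
  rw [sum_range_succ' _ (by simp)]
  have h4 : (range (k + 1)).filter (fun n => n % 1 = 0) = range (k + 1) := by
    apply Finset.filter_true_of_mem
    intro n _
    exact Nat.mod_one n
  rw [h4] at h3
  push_cast at h3
  have h5 : ∑ n ∈ range (k + 1), muR n = ∑ n ∈ range (k + 1), ((ArithmeticFunction.moebius n : ℤ) : ℝ) :=
    Finset.sum_congr rfl fun n _ => muR_apply n
  rw [h5]
  refine h3.trans ?_
  have : 0 ≤ Real.log (k + 1) := Real.log_nonneg (by linarith)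
  gcongr
  linarith

theorem V_bd (A : ℕ) : ∃ C : ℝ, 0 < C ∧ ∀ k : ℕ, |∑ n ∈ Ioc 0 k, muX n| ≤ C * k / (Real.log (k + 2)) ^ A := by
  obtain ⟨N₀, h⟩ := Pool.Agent.H705R2.MSW.swMu A 1
  refine all_k abs_muX A (max N₀ 100) fun k h1 h2 => ?_
  have hk100 : (100 : ℝ) ≤ k := by exact_mod_cast (le_max_right _ _).trans h1
  have hl4 : ((4 : ℕ) : ℝ) ≤ Real.log ((k + 1 : ℕ) : ℝ) ^ 1 := by
    rw [pow_one]
    push_cast
    rw [Real.le_log_iff_exp_le (by linarith)]
    have : Real.exp 4 = Real.exp 1 ^ 4 := by rw [← Real.exp_nat_mul]; norm_num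
    rw [this]
    have h5 := Real.exp_one_lt_d9
    calc Real.exp 1 ^ 4 ≤ (2.75 : ℝ) ^ 4 := by gcongr; linarith
      _ ≤ 100 := by norm_num
      _ ≤ k + 1 := by linarith
  have h3 := h (k + 1) ((le_max_left _ _).trans (h1.trans (by omega))) 4 1 (by norm_num) hl4
  have h4 := h (k + 1) ((le_max_left _ _).trans (h1.trans (by omega))) 4 3 (by norm_num) hl4
  rw [sum_range_succ' _ (by simp)]
  have h5 : ∑ n ∈ range (k + 1), muX n =
      ∑ n ∈ (range (k + 1)).filter (fun n => n % 4 = 1), ((ArithmeticFunction.moebius n : ℤ) : ℝ) -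
      ∑ n ∈ (range (k + 1)).filter (fun n => n % 4 = 3), ((ArithmeticFunction.moebius n : ℤ) : ℝ) := by
    rw [Finset.sum_filter, Finset.sum_filter, ← Finset.sum_sub_distrib]
    refine Finset.sum_congr rfl fun n _ => ?_
    rw [muX_apply, muR_apply]
    have h6 : xR n = (if n % 4 = 1 then 1 else 0) - (if n % 4 = 3 then 1 else 0) := by
      unfold xR
      rw [ZMod.χ₄_nat_eq_if_mod_four]
      have : n % 4 < 4 := Nat.mod_lt _ (by norm_num)
      split_ifs <;> first | omega | simp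
    rw [h6]
    split_ifs <;> ring
  rw [h5]
  push_cast at h3 h4
  refine (abs_sub _ _).trans ?_
  calc _ ≤ (k + 1) / Real.log (k + 1) ^ A + (k + 1) / Real.log (k + 1) ^ A := add_le_add h3 h4
    _ = 2 * (k + 1) / Real.log (k + 1) ^ A := by ring

end Pool.Agent.N402.GN
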