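import Pool.Agent.N402.GN.P0Bb
import Pool.Agent.N56.GN.EL

/-!
# GN/P0B, part C: sums of the coefficients of the inverse of the zeta function of `ℤ[i]` (helper402)
-/

set_option autoImplicit false

namespace Pool.Agent.N402.GN

open Finset ArithmeticFunction
open Pool.Agent.N782.GN

/-- the logarithm -/
noncomputable def ell (k : ℕ) : ℝ := Real.log (k + 2)

theorem ell_pos (k : ℕ) : 0 < ell k := Real.log_pos (by
  have : (0 : ℝ) ≤ k := Nat.cast_nonneg k
  linarith)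

theorem ell_half (k : ℕ) : 1 / 2 ≤ ell k := by
  have h1 : Real.log 2 ≤ ell k := Real.log_le_log (by norm_num) (by
    have : (0 : ℝ) ≤ k := Nat.cast_nonneg k
    linarith)
  linarith [Real.log_two_gt_d9]

theorem ell_mono {a b : ℕ} (h : a ≤ b) : ell a ≤ ell b := by
  have h0 : (0 : ℝ) ≤ a := Nat.cast_nonneg a
  have h1 : (a : ℝ) ≤ b := by exact_mod_cast h
  exact Real.log_le_log (by linarith) (by linarith)

theorem one_le_ell {k : ℕ} (hk : 1 ≤ k) : 1 ≤ ell k := by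
  have h0 : (1 : ℝ) ≤ k := by exact_mod_cast hk
  unfold ell
  rw [Real.le_log_iff_exp_le (by linarith)]
  have := Real.exp_one_lt_d9
  linarith

theorem harm (N : ℕ) : ∑ n ∈ Ioc 0 N, (1 : ℝ) / n ≤ 3 * ell N := by
  have h1 := harmonic_le_one_add_log N
  rw [harmonic_eq_sum_Icc] at h1
  push_cast at h1
  have h2 : ∑ n ∈ Ioc 0 N, (1 : ℝ) / n = ∑ n ∈ Icc 1 N, ((n : ℝ))⁻¹ := by
    rw [show Icc 1 N = Ioc 0 N from rfl]
    exact Finset.sum_congr rfl fun n _ => one_div _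
  rw [h2]
  refine h1.trans ?_
  have h3 := ell_half N
  have h4 : Real.log N ≤ ell N := by
    rcases Nat.eq_zero_or_pos N with rfl | h
    · simp [(ell_pos 0).le]
    · have : (0 : ℝ) < N := by exact_mod_cast h
      exact Real.log_le_log this (by linarith)
  linarith

theorem sum_sqrt (k : ℕ) : ∑ m ∈ Ioc 0 k, 1 / Real.sqrt m ≤ 2 * Real.sqrt k := by
  induction k with
  | zero => simp
  | succ k ih =>
    rw [Finset.sum_Ioc_succ_top (Nat.zero_le k)]
    have h1 : (0 : ℝ) ≤ k := Nat.cast_nonneg k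
    have h2 : Real.sqrt ((k + 1 : ℕ) : ℝ) * Real.sqrt ((k + 1 : ℕ) : ℝ) = k + 1 := by
      rw [Real.mul_self_sqrt (by positivity)]; push_cast; ring
    have h3 : Real.sqrt k * Real.sqrt k = k := Real.mul_self_sqrt h1
    have h4 : 0 < Real.sqrt ((k + 1 : ℕ) : ℝ) := Real.sqrt_pos.2 (by positivity)
    have h5 : 0 ≤ Real.sqrt k := Real.sqrt_nonneg _
    have h6 : 1 / Real.sqrt ((k + 1 : ℕ) : ℝ) ≤
        2 * (Real.sqrt ((k + 1 : ℕ) : ℝ) - Real.sqrt k) := by
      rw [div_le_iff₀ h4]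
      nlinarith [sq_nonneg (Real.sqrt ((k + 1 : ℕ) : ℝ) - Real.sqrt k)]
    linarith

/-- the sums of the coefficients -/
theorem S_bd (A : ℕ) : ∃ C : ℝ, 0 < C ∧ ∀ N : ℕ, |∑ n ∈ Ioc 0 N, aR n| ≤ C * N / ell N ^ A := by
  obtain ⟨C1, hC1, hU⟩ := U_bd (A + 1)
  obtain ⟨C2, hC2, hV⟩ := V_bd (A + 1)
  refine ⟨9 * ((C1 + C2) * 2 ^ (A + 1)), by positivity, fun N => ?_⟩
  set D := (C1 + C2) * 2 ^ (A + 1) with hD
  have hD0 : 0 < D := by positivity
  have hL := ell_pos N
  have hN0 : (0 : ℝ) ≤ N := Nat.cast_nonneg N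
  set y := Nat.sqrt N with hy
  have hyN : y ≤ N := Nat.sqrt_le_self N
  have hyy : y * y ≤ N := Nat.sqrt_le N
  have key : ∀ k : ℕ, y ≤ k → ell N ≤ 2 * Real.log (k + 2) := by
    intro k hk
    have h1 : N < (y + 1) * (y + 1) := Nat.lt_succ_sqrt N
    have h2 : (N : ℝ) < (y + 1) * (y + 1) := by exact_mod_cast h1
    have h3 : (y : ℝ) ≤ k := by exact_mod_cast hk
    have h4 : (0 : ℝ) ≤ y := Nat.cast_nonneg y
    rw [← Real.log_rpow (by linarith)]
    apply Real.log_le_log (by linarith)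
    rw [Real.rpow_two]
    nlinarith
  have gen : ∀ (C : ℝ) (f : ℕ → ℝ), 0 < C → C ≤ C1 + C2 →
      (∀ k : ℕ, |∑ n ∈ Ioc 0 k, f n| ≤ C * k / (Real.log (k + 2)) ^ (A + 1)) →
      ∀ k : ℕ, y ≤ k → |∑ n ∈ Ioc 0 k, f n| ≤ D * k / ell N ^ (A + 1) := by
    intro C f hC0 hC hf k hk
    refine (hf k).trans ?_
    have h1 := key k hk
    have h2 : 0 < Real.log ((k : ℝ) + 2) := by linarith
    rw [div_le_div_iff₀ (by positivity) (by positivity)]
    have h3 : ell N ^ (A + 1) ≤ 2 ^ (A + 1) * Real.log ((k : ℝ) + 2) ^ (A + 1) := by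
      rw [← mul_pow]
      gcongr
    calc C * k * ell N ^ (A + 1) ≤ (C1 + C2) * k * (2 ^ (A + 1) * Real.log ((k : ℝ) + 2) ^ (A + 1)) := by
          gcongr
      _ = D * k * Real.log ((k : ℝ) + 2) ^ (A + 1) := by rw [hD]; ring
  have hU' := gen C1 muR hC1 (by linarith) hU
  have hV' := gen C2 muX hC2 (by linarith) hV
  unfold aR
  rw [hyp muR muX hyN]
  have e1 : |∑ n ∈ Ioc 0 y, muR n * ∑ m ∈ Ioc 0 (N / n), muX m| ≤
      ∑ n ∈ Ioc 0 N, D * N / ell N ^ (A + 1) * (1 / n) := by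
    refine (Finset.abs_sum_le_sum_abs _ _).trans ?_
    refine le_trans ?_ (Finset.sum_le_sum_of_subset_of_nonneg (Finset.Ioc_subset_Ioc_right hyN)
      fun n _ _ => by positivity)
    refine Finset.sum_le_sum fun n hn => ?_
    rw [mem_Ioc] at hn
    rw [abs_mul]
    have h1 : y ≤ N / n := by
      rw [Nat.le_div_iff_mul_le hn.1]
      nlinarith
    have h2 := hV' _ h1
    have h3 : ((N / n : ℕ) : ℝ) ≤ N / n := Nat.cast_div_le
    calc |muR n| * |∑ m ∈ Ioc 0 (N / n), muX m| ≤ 1 * (D * (N / n) / ell N ^ (A + 1)) := by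
          refine mul_le_mul (abs_muR n) (h2.trans ?_) (abs_nonneg _) zero_le_one
          gcongr
      _ = D * N / ell N ^ (A + 1) * (1 / n) := by ring
  have e2 : |∑ m ∈ Ioc 0 N, muX m * ∑ n ∈ Ioc y (N / m), muR n| ≤
      ∑ n ∈ Ioc 0 N, 2 * (D * N / ell N ^ (A + 1) * (1 / n)) := by
    refine (Finset.abs_sum_le_sum_abs _ _).trans ?_
    refine Finset.sum_le_sum fun n hn => ?_
    rw [mem_Ioc] at hn
    rw [abs_mul]
    rcases le_or_gt (N / n) y with h1 | h1
    · rw [Finset.Ioc_eq_empty (by omega), Finset.sum_empty, abs_zero, mul_zero]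
      positivity
    · have h2 := hU' _ h1.le
      have h2' := hU' _ le_rfl
      have h3 : ((N / n : ℕ) : ℝ) ≤ N / n := Nat.cast_div_le
      have h4 : (y : ℝ) ≤ N / n := le_trans (by exact_mod_cast h1.le) h3
      have h5 : ∑ m ∈ Ioc y (N / n), muR m = ∑ m ∈ Ioc 0 (N / n), muR m - ∑ m ∈ Ioc 0 y, muR m := by
        rw [← Finset.sum_Ioc_consecutive _ (Nat.zero_le y) h1.le]
        ring
      have h6 : |∑ m ∈ Ioc y (N / n), muR m| ≤ D * (N / n) / ell N ^ (A + 1) +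
          D * (N / n) / ell N ^ (A + 1) := by
        rw [h5]
        refine (abs_sub _ _).trans (add_le_add (h2.trans ?_) (h2'.trans ?_))
        · gcongr
        · gcongr
      calc |muX n| * |∑ m ∈ Ioc y (N / n), muR m| ≤ 1 * (D * (N / n) / ell N ^ (A + 1) +
          D * (N / n) / ell N ^ (A + 1)) := mul_le_mul (abs_muX n) h6 (abs_nonneg _) zero_le_one
        _ = 2 * (D * N / ell N ^ (A + 1) * (1 / n)) := by ring
  have hh := harm N
  rw [← Finset.mul_sum] at e1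
  rw [← Finset.mul_sum, ← Finset.mul_sum] at e2
  refine (abs_add_le _ _).trans ((add_le_add e1 e2).trans ?_)
  have h7 : 0 ≤ D * N / ell N ^ (A + 1) := by positivity
  calc _ = 3 * (D * N / ell N ^ (A + 1) * ∑ n ∈ Ioc 0 N, (1 : ℝ) / n) := by ring
    _ ≤ 3 * (D * N / ell N ^ (A + 1) * (3 * ell N)) := by gcongr
    _ = 9 * D * N / ell N ^ A := by
      rw [pow_succ]
      field_simp
      ring

/-- the number of the lattice points in a disc -/
theorem R_bd : ∃ C : ℝ, 0 < C ∧ ∀ k : ℕ, 1 ≤ k →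
    |∑ n ∈ Ioc 0 k, bR n - Real.pi / 4 * k| ≤ C * Real.sqrt k := by
  obtain ⟨C, hC, h⟩ := Pool.Agent.N56.GN.el
  refine ⟨C / 4, by positivity, fun k hk => ?_⟩
  have hk1 : (1 : ℝ) ≤ k := by exact_mod_cast hk
  have h1 := h 0 0 1 0 k le_rfl hk1
  have h2 : cls 1 0 (k : ℝ) = bl k := by
    classical
    ext t
    unfold cls
    rw [Finset.mem_filter, and_iff_left_iff_imp]
    intro _
    rw [Nat.cast_one]
    exact one_dvd _
  rw [h2] at h1
  have h3 : ∑ t ∈ bl (k : ℝ), ph 0 0 t = (((bl (k : ℝ)).card : ℝ) : ℂ) := by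
    rw [Finset.card_eq_sum_ones]
    push_cast
    refine Finset.sum_congr rfl fun t _ => ?_
    simp [ph]
  rw [h3, card_bl, Nat.floor_natCast, if_pos rfl] at h1
  have h4 : (((4 * ∑ n ∈ Ioc 0 k, bR n : ℝ) : ℂ) - ((Real.pi / ((1 : ℕ) : ℝ) ^ 2 : ℝ) : ℂ) *
      (((k : ℝ) : ℂ) ^ (1 - ((0 : ℝ) : ℂ) * Complex.I) / (1 - ((0 : ℝ) : ℂ) * Complex.I))) =
      ((4 * ∑ n ∈ Ioc 0 k, bR n - Real.pi * k : ℝ) : ℂ) := by
    simp
  rw [h4, Complex.norm_real, Real.norm_eq_abs] at h1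
  simp only [Int.cast_zero, abs_zero, add_zero, mul_one] at h1
  have h5 : 4 * ∑ n ∈ Ioc 0 k, bR n - Real.pi * k =
      4 * (∑ n ∈ Ioc 0 k, bR n - Real.pi / 4 * k) := by ring
  rw [h5, abs_mul] at h1
  rw [abs_of_pos (by norm_num : (0 : ℝ) < 4)] at h1
  linarith

theorem abs_bR (m : ℕ) : |bR m| ≤ m := by
  unfold bR
  rw [mul_apply]
  refine (Finset.abs_sum_le_sum_abs _ _).trans ?_
  have h1 : ∀ p ∈ m.divisorsAntidiagonal, |((ArithmeticFunction.zeta : ArithmeticFunction ℕ) :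
      ArithmeticFunction ℝ) p.1 * xF p.2| ≤ 1 := by
    intro p hp
    have h5 := Nat.mem_divisorsAntidiagonal.1 hp
    have h7 : p.1 ≠ 0 := by rintro h; rw [h, zero_mul] at h5; exact h5.2 h5.1.symm
    have h8 : p.2 ≠ 0 := by rintro h; rw [h, mul_zero] at h5; exact h5.2 h5.1.symm
    rw [natCoe_apply, zeta_apply, if_neg h7, xF_apply h8, Nat.cast_one, one_mul]
    exact abs_xR _
  refine (Finset.sum_le_sum h1).trans ?_
  rw [Finset.sum_const, nsmul_eq_mul, mul_one]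
  have h2 : m.divisorsAntidiagonal.card = m.divisors.card := by
    rw [← Nat.map_div_right_divisors, Finset.card_map]
  rw [h2]
  exact_mod_cast Nat.card_divisors_le_self m

/-- `1 / √n` -/
noncomputable def hF : ArithmeticFunction ℝ := ⟨fun n => 1 / Real.sqrt n, by simp⟩

theorem hF_apply (n : ℕ) : hF n = 1 / Real.sqrt n := rfl

theorem abs_aR_le (n : ℕ) : |aR n| * (1 / Real.sqrt n) ≤ (hF * hF) n := by
  unfold aR
  rw [mul_apply, mul_apply]
  calc |∑ p ∈ n.divisorsAntidiagonal, muR p.1 * muX p.2| * (1 / Real.sqrt n) ≤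
      (∑ p ∈ n.divisorsAntidiagonal, |muR p.1 * muX p.2|) * (1 / Real.sqrt n) :=
        mul_le_mul_of_nonneg_right (Finset.abs_sum_le_sum_abs _ _) (by positivity)
    _ = ∑ p ∈ n.divisorsAntidiagonal, |muR p.1 * muX p.2| * (1 / Real.sqrt n) := Finset.sum_mul _ _ _
    _ ≤ _ := by
      refine Finset.sum_le_sum fun p hp => ?_
      have h5 := Nat.mem_divisorsAntidiagonal.1 hp
      have h6 : Real.sqrt n = Real.sqrt p.1 * Real.sqrt p.2 := by
        rw [← Real.sqrt_mul (Nat.cast_nonneg _), ← h5.1]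
        push_cast
        rfl
      rw [hF_apply, hF_apply, h6, abs_mul]
      calc |muR p.1| * |muX p.2| * (1 / (Real.sqrt p.1 * Real.sqrt p.2)) ≤
          1 * 1 * (1 / (Real.sqrt p.1 * Real.sqrt p.2)) := by
            gcongr
            · exact abs_muR _
            · exact abs_muX _
        _ = _ := by
          rw [one_mul, one_mul, one_div_mul_one_div]

theorem sum_hh (Z : ℕ) : ∑ n ∈ Ioc 0 Z, |aR n| * (1 / Real.sqrt n) ≤
    2 * Real.sqrt Z * (3 * ell Z) := by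
  refine (Finset.sum_le_sum fun n _ => abs_aR_le n).trans ?_
  rw [sum_Ioc_mul_eq_sum_sum]
  calc ∑ n ∈ Ioc 0 Z, hF n * ∑ m ∈ Ioc 0 (Z / n), hF m ≤
      ∑ n ∈ Ioc 0 Z, 2 * Real.sqrt Z * (1 / n) := by
        refine Finset.sum_le_sum fun n hn => ?_
        rw [mem_Ioc] at hn
        have hn0 : (0 : ℝ) < n := by exact_mod_cast hn.1
        have h1 : ∑ m ∈ Ioc 0 (Z / n), hF m ≤ 2 * Real.sqrt ((Z / n : ℕ) : ℝ) := sum_sqrt _
        have h2 : Real.sqrt ((Z / n : ℕ) : ℝ) ≤ Real.sqrt Z / Real.sqrt n := by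
          rw [← Real.sqrt_div (Nat.cast_nonneg _)]
          exact Real.sqrt_le_sqrt Nat.cast_div_le
        have h3 : 0 < Real.sqrt n := Real.sqrt_pos.2 hn0
        rw [hF_apply]
        calc 1 / Real.sqrt n * ∑ m ∈ Ioc 0 (Z / n), hF m ≤
            1 / Real.sqrt n * (2 * (Real.sqrt Z / Real.sqrt n)) := by
              gcongr
              linarith
          _ = 2 * Real.sqrt Z * (1 / (Real.sqrt n * Real.sqrt n)) := by
              field_simp
          _ = _ := by rw [Real.mul_self_sqrt hn0.le]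
    _ = 2 * Real.sqrt Z * ∑ n ∈ Ioc 0 Z, (1 : ℝ) / n := by rw [Finset.mul_sum]
    _ ≤ _ := by
      have := harm Z
      gcongr

/-- the sums with weights -/
theorem T_aux {A : ℕ} {C C3 : ℝ} (hC : 0 < C) (hC3 : 0 < C3)
    (hS : ∀ N : ℕ, |∑ n ∈ Ioc 0 N, aR n| ≤ C * N / ell N ^ A)
    (hR : ∀ k : ℕ, 1 ≤ k → |∑ n ∈ Ioc 0 k, bR n - Real.pi / 4 * k| ≤ C3 * Real.sqrt k)
    {Z K : ℕ} (hZ : 1 ≤ Z) (hK : 1 ≤ K) :
    Real.pi / 4 * |∑ n ∈ Ioc 0 Z, aR n * (1 / n)| ≤
      1 / K + (C3 + 1) * (6 * ell Z) / Real.sqrt K + 2 * C * K ^ 2 / ell Z ^ A := by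
  set N := Z * K with hN
  have hZN : Z ≤ N := Nat.le_mul_of_pos_right _ (by omega)
  have hN1 : 1 ≤ N := hZ.trans hZN
  have hNr : (1 : ℝ) ≤ N := by exact_mod_cast hN1
  have hZr : (1 : ℝ) ≤ Z := by exact_mod_cast hZ
  have hKr : (1 : ℝ) ≤ K := by exact_mod_cast hK
  have hNZK : (N : ℝ) = Z * K := by rw [hN]; push_cast; ring
  have hL := ell_pos Z
  have h1 := hyp aR bR hZN
  rw [ab_one] at h1
  have h2 : ∑ n ∈ Ioc 0 N, (1 : ArithmeticFunction ℝ) n = 1 := by
    rw [Finset.sum_eq_single 1]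
    · exact one_one
    · intro n _ hn
      exact one_apply_ne hn
    · intro h
      exfalso
      apply h
      rw [mem_Ioc]
      omega
  rw [h2] at h1
  have e2 : |∑ m ∈ Ioc 0 N, bR m * ∑ n ∈ Ioc Z (N / m), aR n| ≤ N * (2 * C * K ^ 2 / ell Z ^ A) := by
    have hKN : K ≤ N := Nat.le_mul_of_pos_left _ (by omega)
    rw [← Finset.sum_Ioc_consecutive _ (Nat.zero_le K) hKN]
    have h3 : ∑ m ∈ Ioc K N, bR m * ∑ n ∈ Ioc Z (N / m), aR n = 0 := by
      refine Finset.sum_eq_zero fun m hm => ?_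
      rw [mem_Ioc] at hm
      have : N / m ≤ Z := by
        rw [Nat.div_le_iff_le_mul_add_pred (by omega)]
        nlinarith
      rw [Finset.Ioc_eq_empty (by omega), Finset.sum_empty, mul_zero]
    rw [h3, add_zero]
    refine (Finset.abs_sum_le_sum_abs _ _).trans ?_
    calc ∑ m ∈ Ioc 0 K, |bR m * ∑ n ∈ Ioc Z (N / m), aR n| ≤
        ∑ m ∈ Ioc 0 K, K * (2 * C * N / ell Z ^ A) := by
          refine Finset.sum_le_sum fun m hm => ?_
          rw [mem_Ioc] at hm
          rw [abs_mul]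
          have hmK : (m : ℝ) ≤ K := by exact_mod_cast hm.2
          refine mul_le_mul ((abs_bR m).trans hmK) ?_ (abs_nonneg _) (by positivity)
          rcases le_or_gt (N / m) Z with h4 | h4
          · rw [Finset.Ioc_eq_empty (by omega), Finset.sum_empty, abs_zero]
            positivity
          · have h5 : ∑ n ∈ Ioc Z (N / m), aR n = ∑ n ∈ Ioc 0 (N / m), aR n - ∑ n ∈ Ioc 0 Z, aR n := by
              rw [← Finset.sum_Ioc_consecutive _ (Nat.zero_le Z) h4.le]
              ring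
            have h6 : ∀ k : ℕ, Z ≤ k → k ≤ N → |∑ n ∈ Ioc 0 k, aR n| ≤ C * N / ell Z ^ A := by
              intro k hk hk'
              refine (hS k).trans ?_
              have h7 := ell_mono hk
              have h8 : (k : ℝ) ≤ N := by exact_mod_cast hk'
              gcongr
            rw [h5]
            refine (abs_sub _ _).trans ((add_le_add (h6 _ h4.le (Nat.div_le_self _ _)) (h6 _ le_rfl hZN)).trans_eq ?_)
            ring
      _ = N * (2 * C * K ^ 2 / ell Z ^ A) := by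
        rw [Finset.sum_const, Nat.card_Ioc, Nat.sub_zero, nsmul_eq_mul]
        ring
  have e1 : |∑ n ∈ Ioc 0 Z, aR n * ∑ m ∈ Ioc 0 (N / n), bR m -
      Real.pi / 4 * N * ∑ n ∈ Ioc 0 Z, aR n * (1 / n)| ≤
      (C3 + 1) * Real.sqrt N * (2 * Real.sqrt Z * (3 * ell Z)) := by
    rw [Finset.mul_sum, ← Finset.sum_sub_distrib]
    refine (Finset.abs_sum_le_sum_abs _ _).trans ?_
    calc ∑ n ∈ Ioc 0 Z, |aR n * ∑ m ∈ Ioc 0 (N / n), bR m - Real.pi / 4 * N * (aR n * (1 / n))| ≤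
        ∑ n ∈ Ioc 0 Z, (C3 + 1) * Real.sqrt N * (|aR n| * (1 / Real.sqrt n)) := by
          refine Finset.sum_le_sum fun n hn => ?_
          rw [mem_Ioc] at hn
          have hn0 : (0 : ℝ) < n := by exact_mod_cast hn.1
          have hnN : n ≤ N := hn.2.trans hZN
          have h3 : 1 ≤ N / n := (Nat.one_le_div_iff hn.1).2 hnN
          have h4 := hR _ h3
          have h5 : ((N / n : ℕ) : ℝ) ≤ N / n := Nat.cast_div_le
          have h6 : (N : ℝ) / n < ((N / n : ℕ) : ℝ) + 1 := by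
            rw [div_lt_iff₀ hn0]
            have := Nat.lt_div_mul_add (a := N) hn.1
            have h7 : (N : ℝ) < ((N / n : ℕ) : ℝ) * n + n := by exact_mod_cast this
            linarith
          have h7 : (1 : ℝ) ≤ N / n := by
            rw [le_div_iff₀ hn0, one_mul]
            exact_mod_cast hnN
          have h8 : 1 ≤ Real.sqrt (N / n) := by
            rw [Real.one_le_sqrt]
            exact h7
          have h9 : Real.sqrt ((N / n : ℕ) : ℝ) ≤ Real.sqrt (N / n) := Real.sqrt_le_sqrt h5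
          have h10 : |∑ m ∈ Ioc 0 (N / n), bR m - Real.pi / 4 * (N / n)| ≤ (C3 + 1) * Real.sqrt (N / n) := by
            have hpi := Real.pi_lt_four
            have hpi0 := Real.pi_pos
            have h11 : ∑ m ∈ Ioc 0 (N / n), bR m - Real.pi / 4 * (N / n) =
                (∑ m ∈ Ioc 0 (N / n), bR m - Real.pi / 4 * ((N / n : ℕ) : ℝ)) +
                Real.pi / 4 * (((N / n : ℕ) : ℝ) - N / n) := by ring
            rw [h11]
            refine (abs_add_le _ _).trans ?_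
            have h12 : |Real.pi / 4 * (((N / n : ℕ) : ℝ) - N / n)| ≤ 1 := by
              rw [abs_mul]
              refine mul_le_one₀ ?_ (abs_nonneg _) ?_
              · rw [abs_of_pos (by positivity)]
                linarith
              · rw [abs_le]
                constructor <;> linarith
            have h13 : C3 * Real.sqrt ((N / n : ℕ) : ℝ) ≤ C3 * Real.sqrt (N / n) := by gcongr
            linarith
          have h11 : aR n * ∑ m ∈ Ioc 0 (N / n), bR m - Real.pi / 4 * N * (aR n * (1 / n)) =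
              aR n * (∑ m ∈ Ioc 0 (N / n), bR m - Real.pi / 4 * (N / n)) := by
            rw [mul_sub]
            congr 1
            ring
          rw [h11, abs_mul]
          calc |aR n| * |∑ m ∈ Ioc 0 (N / n), bR m - Real.pi / 4 * (N / n)| ≤
              |aR n| * ((C3 + 1) * Real.sqrt (N / n)) := by gcongr
            _ = (C3 + 1) * Real.sqrt N * (|aR n| * (1 / Real.sqrt n)) := by
              rw [Real.sqrt_div (by positivity)]
              ring
      _ = (C3 + 1) * Real.sqrt N * ∑ n ∈ Ioc 0 Z, |aR n| * (1 / Real.sqrt n) := by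
          rw [Finset.mul_sum]
      _ ≤ _ := by
        have := sum_hh Z
        gcongr
  set T := ∑ n ∈ Ioc 0 Z, aR n * (1 / n) with hT
  set P := ∑ n ∈ Ioc 0 Z, aR n * ∑ m ∈ Ioc 0 (N / n), bR m with hP
  set Q := ∑ m ∈ Ioc 0 N, bR m * ∑ n ∈ Ioc Z (N / m), aR n with hQ
  have h3 : Real.pi / 4 * N * T = 1 - Q - (P - Real.pi / 4 * N * T) := by
    linarith
  have h4 : |Real.pi / 4 * N * T| ≤ 1 + N * (2 * C * K ^ 2 / ell Z ^ A) +
      (C3 + 1) * Real.sqrt N * (2 * Real.sqrt Z * (3 * ell Z)) := by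
    rw [h3]
    refine (abs_sub _ _).trans (add_le_add ((abs_sub _ _).trans ?_) e1)
    rw [abs_one]
    linarith
  have hpi0 := Real.pi_pos
  rw [abs_mul, abs_of_pos (by positivity : 0 < Real.pi / 4 * N)] at h4
  have hsK : 0 < Real.sqrt K := Real.sqrt_pos.2 (by linarith)
  have h5 : Real.sqrt N * Real.sqrt Z = N / Real.sqrt K := by
    have h6 : Real.sqrt N = Real.sqrt Z * Real.sqrt K := by
      rw [hNZK, Real.sqrt_mul (by linarith)]
    have h7 : Real.sqrt K * Real.sqrt K = K := Real.mul_self_sqrt (by linarith)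
    have h8 : Real.sqrt Z * Real.sqrt Z = Z := Real.mul_self_sqrt (by linarith)
    rw [eq_div_iff hsK.ne', h6, hNZK]
    calc Real.sqrt Z * Real.sqrt K * Real.sqrt Z * Real.sqrt K =
        (Real.sqrt Z * Real.sqrt Z) * (Real.sqrt K * Real.sqrt K) := by ring
      _ = _ := by rw [h7, h8]
  have h6 : N * (Real.pi / 4 * |T|) ≤ N * (1 / K + (C3 + 1) * (6 * ell Z) / Real.sqrt K +
      2 * C * K ^ 2 / ell Z ^ A) := by
    calc N * (Real.pi / 4 * |T|) = Real.pi / 4 * N * |T| := by ring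
      _ ≤ _ := h4
      _ = 1 + N * (2 * C * K ^ 2 / ell Z ^ A) +
        (C3 + 1) * (Real.sqrt N * Real.sqrt Z) * (6 * ell Z) := by ring
      _ = 1 + N * (2 * C * K ^ 2 / ell Z ^ A) + N * ((C3 + 1) * (6 * ell Z) / Real.sqrt K) := by
        rw [h5]
        ring
      _ ≤ N * (1 / K) + N * (2 * C * K ^ 2 / ell Z ^ A) + N * ((C3 + 1) * (6 * ell Z) / Real.sqrt K) := by
        have : 1 ≤ N * (1 / (K : ℝ)) := by
          rw [hNZK, mul_one_div, mul_div_assoc, div_self (by positivity), mul_one]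
          exact hZr
        linarith
      _ = _ := by ring
  exact le_of_mul_le_mul_left h6 (by linarith)

theorem T_bd (D : ℕ) : ∃ C : ℝ, 0 < C ∧ ∀ Z : ℕ, |∑ n ∈ Ioc 0 Z, aR n * (1 / n)| ≤ C / ell Z ^ D := by
  obtain ⟨C, hC, hS⟩ := S_bd (5 * D + 4)
  obtain ⟨C3, hC3, hR⟩ := R_bd
  refine ⟨2 * (1 + (C3 + 1) * 6 + 8 * C), by positivity, fun Z => ?_⟩
  rcases Nat.eq_zero_or_pos Z with rfl | hZ
  · have := ell_pos 0
    rw [Finset.Ioc_self, Finset.sum_empty, abs_zero]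
    positivity
  have hl1 := one_le_ell hZ
  have hl0 : 0 < ell Z := by linarith
  set K := ⌈ell Z ^ (2 * D + 2)⌉₊ with hK
  have hK1 : ell Z ^ (2 * D + 2) ≤ K := Nat.le_ceil _
  have hK2 : (K : ℝ) < ell Z ^ (2 * D + 2) + 1 := Nat.ceil_lt_add_one (by positivity)
  have hp1 : 1 ≤ ell Z ^ (2 * D + 2) := one_le_pow₀ hl1
  have hK3 : (1 : ℝ) ≤ K := by linarith
  have hK4 : 1 ≤ K := by exact_mod_cast hK3
  have h1 := T_aux hC hC3 hS hR hZ hK4
  have h2 : ell Z ^ (D + 1) ≤ Real.sqrt K := by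
    apply Real.le_sqrt_of_sq_le
    rw [← pow_mul, show (D + 1) * 2 = 2 * D + 2 by ring]
    exact hK1
  have hD1 : 0 < ell Z ^ D := by positivity
  have a1 : 1 / (K : ℝ) ≤ 1 / ell Z ^ D := by
    apply one_div_le_one_div_of_le hD1
    refine le_trans ?_ hK1
    exact pow_le_pow_right₀ hl1 (by omega)
  have a2 : (C3 + 1) * (6 * ell Z) / Real.sqrt K ≤ (C3 + 1) * 6 / ell Z ^ D := by
    have : 0 < ell Z ^ (D + 1) := by positivity
    calc (C3 + 1) * (6 * ell Z) / Real.sqrt K ≤ (C3 + 1) * (6 * ell Z) / ell Z ^ (D + 1) := by gcongr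
      _ = (C3 + 1) * 6 / ell Z ^ D := by
        rw [pow_succ]
        field_simp
  have a3 : 2 * C * (K : ℝ) ^ 2 / ell Z ^ (5 * D + 4) ≤ 8 * C / ell Z ^ D := by
    have h3 : (K : ℝ) ^ 2 ≤ 4 * ell Z ^ (4 * D + 4) := by
      calc (K : ℝ) ^ 2 ≤ (2 * ell Z ^ (2 * D + 2)) ^ 2 := by
            gcongr
            linarith
        _ = 4 * ell Z ^ (4 * D + 4) := by
          rw [mul_pow, ← pow_mul, show (2 * D + 2) * 2 = 4 * D + 4 by ring]
          norm_num
    rw [div_le_div_iff₀ (by positivity) hD1]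
    calc 2 * C * (K : ℝ) ^ 2 * ell Z ^ D ≤ 2 * C * (4 * ell Z ^ (4 * D + 4)) * ell Z ^ D := by gcongr
      _ = 8 * C * ell Z ^ (5 * D + 4) := by
        rw [show 5 * D + 4 = (4 * D + 4) + D by ring, pow_add]
        ring
  have hpi := Real.pi_gt_three
  have hT0 : 0 ≤ |∑ n ∈ Ioc 0 Z, aR n * (1 / n)| := abs_nonneg _
  have h4 : 1 / 2 * |∑ n ∈ Ioc 0 Z, aR n * (1 / n)| ≤ Real.pi / 4 * |∑ n ∈ Ioc 0 Z, aR n * (1 / n)| := by
    apply mul_le_mul_of_nonneg_right _ hT0
    linarith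
  calc |∑ n ∈ Ioc 0 Z, aR n * (1 / n)| ≤ 2 * (1 / ell Z ^ D + (C3 + 1) * 6 / ell Z ^ D +
      8 * C / ell Z ^ D) := by linarith
    _ = _ := by ring

end Pool.Agent.N402.GN
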